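import Mathlib

/-! The Barnes–Wall lattices as rings of integer-valued functions on `{0,1}^m`. -/

open Finset

namespace Pool.Agent.helper275_ring

/-- restriction to the two faces: `(f₀, f₁ - f₀)` -/
def Phi (m : ℕ) : ((Fin (m + 1) → Bool) → ℤ) →+
    ((Fin m → Bool) → ℤ) × ((Fin m → Bool) → ℤ) where
  toFun f := (fun x => f (Fin.cons false x), fun x => f (Fin.cons true x) - f (Fin.cons false x))
  map_zero' := by ext <;> simp
  map_add' := by intro f g; ext <;> simp; ring

/-- the filtration of the Barnes–Wall ring -/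
def BW : (m s : ℕ) → AddSubgroup ((Fin m → Bool) → ℤ)
  | 0, s => (AddSubgroup.zmultiples ((2 : ℤ) ^ ((s + 1) / 2))).comap
      (Pi.evalAddMonoidHom (fun _ => ℤ) default)
  | m + 1, s => ((BW m s).prod (BW m (s + 1))).comap (Phi m)

/-- the exponent of the index -/
def ex : (m s : ℕ) → ℕ
  | 0, s => (s + 1) / 2
  | m + 1, s => ex m s + ex m (s + 1)

lemma mem_zero {s : ℕ} {f : (Fin 0 → Bool) → ℤ} :
    f ∈ BW 0 s ↔ (2 : ℤ) ^ ((s + 1) / 2) ∣ f default := by
  rw [BW, AddSubgroup.mem_comap, Int.mem_zmultiples_iff]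
  rfl

lemma mem_succ {m s : ℕ} {f : (Fin (m + 1) → Bool) → ℤ} :
    f ∈ BW (m + 1) s ↔ (fun x => f (Fin.cons false x)) ∈ BW m s ∧
      (fun x => f (Fin.cons true x) - f (Fin.cons false x)) ∈ BW m (s + 1) := by
  rw [BW, AddSubgroup.mem_comap, AddSubgroup.mem_prod]
  rfl

lemma Phi_surj (m : ℕ) : Function.Surjective (Phi m) := by
  rintro ⟨g, h⟩
  refine ⟨fun x => if x 0 then g (Fin.tail x) + h (Fin.tail x) else g (Fin.tail x), ?_⟩
  simp [Phi]

lemma index_BW : ∀ m s : ℕ, (BW m s).index = 2 ^ ex m s := by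
  intro m
  induction m with
  | zero =>
    intro s
    rw [BW, AddSubgroup.index_comap_of_surjective]
    · rw [Int.index_zmultiples, ex]
      simp [Int.natAbs_pow]
    · intro y
      exact ⟨fun _ => y, rfl⟩
  | succ m ih =>
    intro s
    rw [BW, AddSubgroup.index_comap_of_surjective _ (Phi_surj m), AddSubgroup.index_prod, ih, ih, ex,
      pow_add]

lemma ex_succ : ∀ m s : ℕ, 4 * ex (m + 1) s = 2 ^ (m + 1) * (m + 2 * s + 2) := by
  intro m
  induction m with
  | zero =>
    intro s
    have h1 : ex 1 s = (s + 1) / 2 + (s + 1 + 1) / 2 := rfl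
    rw [zero_add, h1]
    omega
  | succ m ih =>
    intro s
    have h1 : ex (m + 1 + 1) s = ex (m + 1) s + ex (m + 1) (s + 1) := rfl
    rw [h1, mul_add, ih, ih, pow_succ 2 (m + 1)]
    ring

lemma BW_anti : ∀ m s : ℕ, BW m (s + 1) ≤ BW m s := by
  intro m
  induction m with
  | zero =>
    intro s f hf
    rw [mem_zero] at hf ⊢
    exact dvd_trans (pow_dvd_pow _ (by omega)) hf
  | succ m ih =>
    intro s f hf
    rw [mem_succ] at hf ⊢
    exact ⟨ih _ hf.1, ih _ hf.2⟩

lemma one_mem_BW : ∀ m : ℕ, (1 : (Fin m → Bool) → ℤ) ∈ BW m 0 := by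
  intro m
  induction m with
  | zero => rw [mem_zero]; simp
  | succ m ih =>
    rw [mem_succ]
    refine ⟨ih, ?_⟩
    have : (fun x : Fin m → Bool => (1 : (Fin (m + 1) → Bool) → ℤ) (Fin.cons true x) -
        (1 : (Fin (m + 1) → Bool) → ℤ) (Fin.cons false x)) = 0 := by
      funext x; simp
    rw [this]
    exact AddSubgroup.zero_mem _

lemma mul_mem_BW : ∀ m s t : ℕ, ∀ f ∈ BW m s, ∀ g ∈ BW m t, f * g ∈ BW m (s + t) := by
  intro m
  induction m with
  | zero =>
    intro s t f hf g hg
    rw [mem_zero] at hf hg ⊢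
    rw [Pi.mul_apply]
    refine dvd_trans (pow_dvd_pow _ ?_) ((pow_add (2 : ℤ) _ _) ▸ mul_dvd_mul hf hg)
    omega
  | succ m ih =>
    intro s t f hf g hg
    rw [mem_succ] at hf hg ⊢
    refine ⟨ih s t _ hf.1 _ hg.1, ?_⟩
    have h1 := ih s (t + 1) _ hf.1 _ hg.2
    have h2 := ih (s + 1) t _ hf.2 _ hg.1
    have h3 := BW_anti m (s + t + 1) (by
      have := ih (s + 1) (t + 1) _ hf.2 _ hg.2
      rwa [show s + 1 + (t + 1) = s + t + 1 + 1 by ring] at this)
    rw [show s + (t + 1) = s + t + 1 by ring] at h1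
    rw [show s + 1 + t = s + t + 1 by ring] at h2
    have h4 := (BW m (s + t + 1)).add_mem ((BW m (s + t + 1)).add_mem h1 h2) h3
    convert h4 using 1
    funext x
    simp only [Pi.mul_apply, Pi.add_apply]
    ring

lemma sum_cons (m : ℕ) (F : (Fin (m + 1) → Bool) → ℤ) :
    ∑ x, F x = ∑ x : Fin m → Bool, F (Fin.cons false x) + ∑ x : Fin m → Bool, F (Fin.cons true x) := by
  rw [← (Fin.consEquiv (fun _ : Fin (m + 1) => Bool)).sum_comp, Fintype.sum_prod_type, Fintype.sum_bool,
    add_comm]
  rfl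

lemma norm_BW : ∀ m s : ℕ, ∀ f ∈ BW m s, f ≠ 0 → (2 : ℤ) ^ (m + s) ≤ ∑ x, f x ^ 2 := by
  intro m
  induction m with
  | zero =>
    intro s f hf hf0
    rw [mem_zero] at hf
    obtain ⟨c, hc⟩ := hf
    have h1 : ∑ x, f x ^ 2 = f default ^ 2 := by
      rw [Fintype.sum_eq_single default]
      intro x hx
      exact absurd (Subsingleton.elim _ _) hx
    have hc0 : c ≠ 0 := by
      rintro rfl
      apply hf0
      funext x
      rw [Subsingleton.elim x default, hc]
      simp
    rw [h1, hc, mul_pow, ← pow_mul]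
    have h2 : (1 : ℤ) ≤ c ^ 2 := by
      have : 0 < c ^ 2 := by positivity
      omega
    have h3 : (2 : ℤ) ^ (0 + s) ≤ 2 ^ ((s + 1) / 2 * 2) := pow_le_pow_right₀ (by norm_num) (by omega)
    have h4 : (0 : ℤ) < 2 ^ ((s + 1) / 2 * 2) := by positivity
    nlinarith
  | succ m ih =>
    intro s f hf hf0
    rw [mem_succ] at hf
    obtain ⟨h1, h2⟩ := hf
    rw [sum_cons]
    have h3 : (fun x => f (Fin.cons true x)) ∈ BW m s := by
      have := (BW m s).add_mem h1 (BW_anti m s h2)
      convert this using 1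
      funext x
      simp
    have hpow : (2 : ℤ) ^ (m + 1 + s) = 2 ^ (m + s) + 2 ^ (m + s) := by
      rw [show m + 1 + s = m + s + 1 by ring, pow_succ]; ring
    have hn0 : 0 ≤ ∑ x : Fin m → Bool, f (Fin.cons false x) ^ 2 :=
      Finset.sum_nonneg fun _ _ => sq_nonneg _
    have hn1 : 0 ≤ ∑ x : Fin m → Bool, f (Fin.cons true x) ^ 2 :=
      Finset.sum_nonneg fun _ _ => sq_nonneg _
    by_cases c0 : (fun x => f (Fin.cons false x)) = 0
    · have h4 : (fun x => f (Fin.cons true x)) ∈ BW m (s + 1) := by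
        convert h2 using 1
        funext x
        have := congrFun c0 x
        simp only [Pi.zero_apply] at this
        rw [this, sub_zero]
      have c1 : (fun x => f (Fin.cons true x)) ≠ 0 := by
        intro c1
        apply hf0
        funext x
        rw [← Fin.cons_self_tail x]
        cases hx : x 0
        · exact congrFun c0 _
        · exact congrFun c1 _
      have := ih (s + 1) _ h4 c1
      rw [show m + (s + 1) = m + 1 + s by ring] at this
      linarith
    · by_cases c1 : (fun x => f (Fin.cons true x)) = 0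
      · have h4 : (fun x => f (Fin.cons false x)) ∈ BW m (s + 1) := by
          have := (BW m (s + 1)).neg_mem h2
          convert this using 1
          funext x
          have := congrFun c1 x
          simp only [Pi.zero_apply] at this
          simp [this]
        have := ih (s + 1) _ h4 c0
        rw [show m + (s + 1) = m + 1 + s by ring] at this
        linarith
      · have e1 := ih s _ h1 c0
        have e2 := ih s _ h3 c1
        rw [hpow]
        linarith

end Pool.Agent.helper275_ring
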