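import Pool.Agent.helper275_ring.Index
import Pool.Agent.helper275_ring.BW

/-! Unital subrings of `ℤ^n` with long shortest vectors, for all `n`. -/

open Finset

namespace Pool.Agent.helper275_ring

/-- a unital subring of `ℤ^ι` of index `2 ^ E` all of whose nonzero vectors have norm `≥ 2 ^ k` -/
def Good (ι : Type) [Fintype ι] (k E : ℕ) : Prop :=
  ∃ R : Subring (ι → ℤ), R.toAddSubgroup.index = 2 ^ E ∧
    ∀ x ∈ R, x ≠ 0 → (2 : ℤ) ^ k ≤ ∑ i, x i ^ 2

lemma BW_anti' (m s : ℕ) : ∀ t : ℕ, BW m (s + t) ≤ BW m s := by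
  intro t
  induction t with
  | zero => exact le_rfl
  | succ t ih => exact (BW_anti m (s + t)).trans ih

lemma good_BW (m : ℕ) : Good (Fin m → Bool) m (ex m 0) := by
  refine ⟨{ carrier := BW m 0
            mul_mem' := fun {a b} ha hb => mul_mem_BW m 0 0 a ha b hb
            one_mem' := one_mem_BW m
            add_mem' := fun ha hb => (BW m 0).add_mem ha hb
            zero_mem' := (BW m 0).zero_mem
            neg_mem' := fun ha => (BW m 0).neg_mem ha }, ?_, ?_⟩
  · exact index_BW m 0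
  · intro x hx hx0
    exact norm_BW m 0 x hx hx0

/-- transport along a bijection of the coordinates -/
lemma good_equiv {ι ι' : Type} [Fintype ι] [Fintype ι'] (e : ι ≃ ι') {k E : ℕ} (h : Good ι k E) :
    Good ι' k E := by
  obtain ⟨R, hR1, hR2⟩ := h
  let ρ : (ι' → ℤ) →+* (ι → ℤ) :=
    { toFun := fun f i => f (e i)
      map_one' := rfl
      map_mul' := fun _ _ => rfl
      map_zero' := rfl
      map_add' := fun _ _ => rfl }
  have hρ : Function.Surjective ρ := fun g => ⟨fun j => g (e.symm j), by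
    funext i
    change g (e.symm (e i)) = g i
    rw [e.symm_apply_apply]⟩
  refine ⟨R.comap ρ, ?_, ?_⟩
  · have : (R.comap ρ).toAddSubgroup = R.toAddSubgroup.comap ρ.toAddMonoidHom := rfl
    rw [this, AddSubgroup.index_comap_of_surjective _ hρ, hR1]
  · intro x hx hx0
    have h1 := hR2 (ρ x) hx (by
      intro h
      apply hx0
      funext j
      have := congrFun h (e.symm j)
      simpa [ρ] using this)
    refine h1.trans (le_of_eq ?_)
    exact e.sum_comp (fun j => x j ^ 2)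

/-- the gluing homomorphism -/
def glue {ι κ : Type} (i0 : ι) : (ι ⊕ κ → ℤ) →+ (ι → ℤ) × (κ → ℤ) where
  toFun f := (fun i => f (Sum.inl i), fun x => f (Sum.inr x) - f (Sum.inl i0))
  map_zero' := by ext <;> simp
  map_add' := by intro f g; ext <;> simp; ring

lemma glue_surj {ι κ : Type} (i0 : ι) : Function.Surjective (glue (κ := κ) i0) := by
  rintro ⟨g, h⟩
  refine ⟨Sum.elim g (fun x => h x + g i0), ?_⟩
  simp [glue]

/-- one more block -/
lemma good_extend {ι : Type} [Fintype ι] [Nonempty ι] {k E b : ℕ} (hb : b ≤ k) (h : Good ι k E) :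
    Good (ι ⊕ (Fin b → Bool)) k (E + ex b (k - b)) := by
  obtain ⟨R, hR1, hR2⟩ := h
  obtain ⟨i0⟩ := ‹Nonempty ι›
  set J := BW b (k - b) with hJ
  let K : AddSubgroup (ι ⊕ (Fin b → Bool) → ℤ) := (R.toAddSubgroup.prod J).comap (glue i0)
  have hK : ∀ f, f ∈ K ↔ (fun i => f (Sum.inl i)) ∈ R ∧
      (fun x => f (Sum.inr x) - f (Sum.inl i0)) ∈ J := fun f => by
    rw [AddSubgroup.mem_comap, AddSubgroup.mem_prod]
    rfl
  refine ⟨{ carrier := K
            mul_mem' := ?_
            one_mem' := ?_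
            add_mem' := fun ha hb => K.add_mem ha hb
            zero_mem' := K.zero_mem
            neg_mem' := fun ha => K.neg_mem ha }, ?_, ?_⟩
  · intro f g hf hg
    rw [SetLike.mem_coe, hK] at hf hg ⊢
    refine ⟨R.mul_mem hf.1 hg.1, ?_⟩
    have h1 : (fun x => f (Sum.inr x) - f (Sum.inl i0)) * (fun x => g (Sum.inr x) - g (Sum.inl i0)) ∈ J :=
      BW_anti' b (k - b) (k - b) (mul_mem_BW b _ _ _ hf.2 _ hg.2)
    have h2 := J.zsmul_mem hg.2 (f (Sum.inl i0))
    have h3 := J.zsmul_mem hf.2 (g (Sum.inl i0))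
    have h4 := J.add_mem (J.add_mem h1 h2) h3
    convert h4 using 1
    funext x
    simp only [Pi.mul_apply, Pi.add_apply, Pi.smul_apply, smul_eq_mul]
    ring
  · rw [SetLike.mem_coe, hK]
    refine ⟨R.one_mem, ?_⟩
    have : (fun x : Fin b → Bool => (1 : ι ⊕ (Fin b → Bool) → ℤ) (Sum.inr x) -
        (1 : ι ⊕ (Fin b → Bool) → ℤ) (Sum.inl i0)) = 0 := by
      funext x; simp
    rw [this]
    exact J.zero_mem
  · change K.index = _
    rw [AddSubgroup.index_comap_of_surjective _ (glue_surj i0), AddSubgroup.index_prod, hR1, hJ,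
      index_BW, pow_add]
  · intro f hf hf0
    obtain ⟨h1, h2⟩ := (hK f).1 hf
    rw [Fintype.sum_sum_type]
    have n1 : 0 ≤ ∑ i : ι, f (Sum.inl i) ^ 2 := Finset.sum_nonneg fun _ _ => sq_nonneg _
    have n2 : 0 ≤ ∑ x : Fin b → Bool, f (Sum.inr x) ^ 2 := Finset.sum_nonneg fun _ _ => sq_nonneg _
    by_cases c : (fun i => f (Sum.inl i)) = 0
    · have c0 : f (Sum.inl i0) = 0 := congrFun c i0
      simp only [c0, sub_zero] at h2
      have := norm_BW b (k - b) _ h2 (by
        intro h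
        apply hf0
        funext x
        rcases x with x | x
        · exact congrFun c x
        · exact congrFun h x)
      rw [show b + (k - b) = k by omega] at this
      linarith
    · have := hR2 _ h1 c
      linarith

lemma ex_le (b d : ℕ) : 4 * ex b d ≤ 2 ^ b * (b + 2 * d + 2) := by
  rcases b with _ | b
  · have : ex 0 d = (d + 1) / 2 := rfl
    rw [this]
    omega
  · rw [ex_succ]
    exact Nat.mul_le_mul_left _ (by omega)

lemma good_grow {k : ℕ} : ∀ j d : ℕ, j + d = k → ∀ r < 2 ^ j, ∀ N, 0 < N → ∀ E,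
    Good (Fin N) k E → ∃ E', Good (Fin (N + r)) k E' ∧
      4 * E' ≤ 4 * E + r * (k + 2) + 2 ^ j * (d + 2) := by
  intro j
  induction j with
  | zero =>
    intro d hd r hr N hN E h
    have : r = 0 := by omega
    subst this
    exact ⟨E, h, by omega⟩
  | succ j ih =>
    intro d hd r hr N hN E h
    have hpow : 2 ^ (j + 1) = 2 * 2 ^ j := by rw [pow_succ]; ring
    rcases Nat.lt_or_ge r (2 ^ j) with hr' | hr'
    · obtain ⟨E', h1, h2⟩ := ih (d + 1) (by omega) r hr' N hN E h
      refine ⟨E', h1, h2.trans ?_⟩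
      rw [hpow]
      have : 2 ^ j * (d + 1 + 2) ≤ 2 * 2 ^ j * (d + 2) := by nlinarith [Nat.zero_le (2 ^ j * d)]
      omega
    · obtain ⟨r', rfl⟩ := Nat.exists_eq_add_of_le hr'
      haveI : Nonempty (Fin N) := ⟨⟨0, hN⟩⟩
      have h1 := good_extend (b := j) (k := k) (by omega) h
      have hkj : k - j = d + 1 := by omega
      rw [hkj] at h1
      have e : (Fin N ⊕ (Fin j → Bool)) ≃ Fin (N + 2 ^ j) :=
        Fintype.equivFinOfCardEq (by simp)
      have h2 := good_equiv e h1
      obtain ⟨E', h3, h4⟩ := ih (d + 1) (by omega) r' (by omega) (N + 2 ^ j) (by omega) _ h2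
      rw [show N + (2 ^ j + r') = N + 2 ^ j + r' by ring]
      refine ⟨E', h3, h4.trans ?_⟩
      have h5 := ex_le j (d + 1)
      have hk : k = j + 1 + d := by omega
      rw [hk, hpow]
      have h6 : 4 * (E + ex j (d + 1)) + r' * (j + 1 + d + 2) + 2 ^ j * (d + 1 + 2) ≤
          4 * E + 2 ^ j * (j + 2 * (d + 1) + 2) + r' * (j + 1 + d + 2) + 2 ^ j * (d + 1 + 2) := by
        omega
      refine h6.trans (le_of_eq ?_)
      ring

/-- powers of two -/
theorem good_two_pow (m : ℕ) : ∃ E, Good (Fin (2 ^ m)) m E ∧ 4 * E ≤ 2 ^ m * (m + 1) := by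
  refine ⟨ex m 0, good_equiv (Fintype.equivFinOfCardEq (by simp)) (good_BW m), ?_⟩
  rcases m with _ | m
  · simp [ex]
  · rw [ex_succ]

/-- all dimensions -/
theorem good_all {n k : ℕ} (h1 : 2 ^ k ≤ n) (h2 : n < 2 ^ (k + 1)) :
    ∃ E, Good (Fin n) k E ∧ 4 * E ≤ n * (k + 3) := by
  obtain ⟨r, rfl⟩ := Nat.exists_eq_add_of_le h1
  obtain ⟨E, hE, hE'⟩ := good_two_pow k
  have hpow : 2 ^ (k + 1) = 2 * 2 ^ k := by rw [pow_succ]; ring
  obtain ⟨E', h3, h4⟩ := good_grow (k := k) k 0 (by omega) r (by omega) (2 ^ k) (by positivity) E hE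
  refine ⟨E', h3, h4.trans ?_⟩
  nlinarith

end Pool.Agent.helper275_ring
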