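import Pool.Agent.helper275_ring.Good

/-! Hermite's invariant of ring lattices. -/

open Finset

namespace Pool.Agent.helper275_ring

variable {n : ℕ}

/-- the least squared length of a nonzero vector of the lattice `A ℤ^n` -/
noncomputable def minNorm (A : Matrix (Fin n) (Fin n) ℝ) : ℝ :=
  ⨅ w : {w : Fin n → ℤ // w ≠ 0}, ∑ i, (Matrix.mulVec A (fun j => (w.1 j : ℝ))) i ^ 2

/-- Hermite's invariant of the lattice `A ℤ^n` -/
noncomputable def herm (A : Matrix (Fin n) (Fin n) ℝ) : ℝ :=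
  minNorm A / |A.det| ^ ((2 : ℝ) / (n : ℝ))

/-- `A ℤ^n = L` -/
def Rep (A : Matrix (Fin n) (Fin n) ℝ) (L : Set (Fin n → ℤ)) : Prop :=
  {v : Fin n → ℝ | ∃ w : Fin n → ℤ, A.mulVec (fun j => (w j : ℝ)) = v} =
    {v : Fin n → ℝ | ∃ x ∈ L, (fun i => (x i : ℝ)) = v}

lemma Rep.to {A : Matrix (Fin n) (Fin n) ℝ} {L : Set (Fin n → ℤ)} (h : Rep A L) (w : Fin n → ℤ) :
    ∃ x ∈ L, (fun i => (x i : ℝ)) = A.mulVec (fun j => (w j : ℝ)) := by
  have : A.mulVec (fun j => (w j : ℝ)) ∈ {v : Fin n → ℝ | ∃ x ∈ L, (fun i => (x i : ℝ)) = v} := by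
    rw [← h]; exact ⟨w, rfl⟩
  exact this

lemma Rep.from {A : Matrix (Fin n) (Fin n) ℝ} {L : Set (Fin n → ℤ)} (h : Rep A L)
    {x : Fin n → ℤ} (hx : x ∈ L) :
    ∃ w : Fin n → ℤ, A.mulVec (fun j => (w j : ℝ)) = (fun i => (x i : ℝ)) := by
  have : (fun i => (x i : ℝ)) ∈
      {v : Fin n → ℝ | ∃ w : Fin n → ℤ, A.mulVec (fun j => (w j : ℝ)) = v} := by
    rw [h]; exact ⟨x, hx, rfl⟩
  exact this

lemma mulVec_inj {A : Matrix (Fin n) (Fin n) ℝ} (hA : A.det ≠ 0) {u v : Fin n → ℝ}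
    (h : A.mulVec u = A.mulVec v) : u = v :=
  Matrix.mulVec_injective_of_isUnit ((Matrix.isUnit_iff_isUnit_det A).2 (isUnit_iff_ne_zero.2 hA)) h

lemma cast_inj {x y : Fin n → ℤ} (h : (fun i => (x i : ℝ)) = (fun i => (y i : ℝ))) : x = y := by
  funext i
  exact_mod_cast congrFun h i

/-- the index is the determinant -/
lemma index_basis (L : AddSubgroup (Fin n → ℤ)) (b : Module.Basis (Fin n) ℤ L) :
    L.index = (Matrix.of fun i j => (b i : Fin n → ℤ) j).det.natAbs := by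
  rw [AddSubgroup.index_eq_natAbs_det (Pi.basisFun ℤ (Fin n)) L b, Pi.basisFun_det_apply]

lemma index_eq {A : Matrix (Fin n) (Fin n) ℝ} (hA : A.det ≠ 0) {L : AddSubgroup (Fin n → ℤ)}
    (h : Rep A L) : (L.index : ℝ) = |A.det| := by
  choose g hg1 hg2 using fun w => h.to w
  have hadd : ∀ w w', g (w + w') = g w + g w' := by
    intro w w'
    apply cast_inj
    rw [hg2]
    have e : (fun j => ((w + w') j : ℝ)) = (fun j => (w j : ℝ)) + fun j => (w' j : ℝ) := by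
      funext j; simp
    rw [e, Matrix.mulVec_add, ← hg2, ← hg2]
    funext i; simp
  let φ : (Fin n → ℤ) →+ L :=
    { toFun := fun w => ⟨g w, hg1 w⟩
      map_zero' := by
        apply Subtype.ext
        change g 0 = 0
        have := hadd 0 0
        rw [add_zero] at this
        simpa using this
      map_add' := fun w w' => Subtype.ext (hadd w w') }
  have hbij : Function.Bijective φ := by
    constructor
    · intro w w' hw
      have h1 : g w = g w' := congrArg Subtype.val hw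
      have h2 := hg2 w
      rw [h1, hg2 w'] at h2
      exact (cast_inj (mulVec_inj hA h2)).symm
    · rintro ⟨x, hx⟩
      obtain ⟨w, hw⟩ := h.from hx
      refine ⟨w, Subtype.ext ?_⟩
      apply cast_inj
      exact (hg2 w).trans hw
  let b : Module.Basis (Fin n) ℤ L :=
    (Pi.basisFun ℤ (Fin n)).map (AddEquiv.ofBijective φ hbij).toIntLinearEquiv
  have hb : ∀ i, (b i : Fin n → ℤ) = g (Pi.single i 1) := by
    intro i
    simp only [b, Module.Basis.map_apply, Pi.basisFun_apply]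
    rfl
  rw [index_basis L b, Nat.cast_natAbs, Int.cast_abs]
  congr 1
  have h1 : ((Matrix.of fun i j => (b i : Fin n → ℤ) j).det : ℝ) =
      ((Int.castRingHom ℝ).mapMatrix (Matrix.of fun i j => (b i : Fin n → ℤ) j)).det :=
    (Int.castRingHom ℝ).map_det _
  rw [h1, ← Matrix.det_transpose A]
  congr 1
  ext i j
  simp only [RingHom.mapMatrix_apply, Matrix.map_apply, Matrix.of_apply, Matrix.transpose_apply, hb]
  have h2 := congrFun (hg2 (Pi.single i 1)) j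
  have h3 : (fun j => ((Pi.single i (1 : ℤ) : Fin n → ℤ) j : ℝ)) = Pi.single i (1 : ℝ) := by
    funext j
    by_cases hj : j = i
    · subst hj; simp
    · simp [hj]
  rw [h3, Matrix.mulVec_single_one] at h2
  exact h2

/-- a matrix for every subgroup of finite index -/
lemma exists_matrix {L : AddSubgroup (Fin n → ℤ)} (hL : L.index ≠ 0) :
    ∃ A : Matrix (Fin n) (Fin n) ℝ, A.det ≠ 0 ∧ Rep A L := by
  haveI : L.FiniteIndex := ⟨hL⟩
  have hfr : Module.finrank ℤ L = n := by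
    rw [AddSubgroup.finrank_eq_of_finiteIndex, Module.finrank_fin_fun]
  let b : Module.Basis (Fin n) ℤ L.toIntSubmodule := Module.finBasisOfFinrankEq ℤ _ hfr
  have hb := index_basis L b
  set B : Matrix (Fin n) (Fin n) ℤ := Matrix.of fun i j => (b i : Fin n → ℤ) j with hB
  refine ⟨(Int.castRingHom ℝ).mapMatrix B.transpose, ?_, ?_⟩
  · rw [← RingHom.map_det, Matrix.det_transpose]
    intro h
    have h2 : B.det = 0 := by
      have h3 : ((B.det : ℤ) : ℝ) = 0 := h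
      exact_mod_cast h3
    have h4 : L.index = B.det.natAbs := hb
    rw [h2] at h4
    exact hL h4
  · have key : ∀ w : Fin n → ℤ, ((Int.castRingHom ℝ).mapMatrix B.transpose).mulVec
        (fun j => (w j : ℝ)) = fun i => ((∑ j, w j • (b j : Fin n → ℤ)) i : ℝ) := by
      intro w
      funext i
      simp only [Matrix.mulVec, dotProduct, RingHom.mapMatrix_apply, Matrix.map_apply,
        Matrix.transpose_apply, hB, Matrix.of_apply, Finset.sum_apply, Pi.smul_apply, smul_eq_mul]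
      push_cast
      apply Finset.sum_congr rfl
      intro j _
      rw [mul_comm]
      rfl
    ext v
    constructor
    · rintro ⟨w, rfl⟩
      refine ⟨∑ j, w j • (b j : Fin n → ℤ), ?_, (key w).symm⟩
      exact L.sum_mem fun j _ => L.zsmul_mem (b j).2 _
    · rintro ⟨x, hx, rfl⟩
      refine ⟨fun j => b.repr ⟨x, hx⟩ j, ?_⟩
      rw [key]
      funext i
      have h1 := b.sum_repr ⟨x, hx⟩
      have h2 := congrArg (fun y : L.toIntSubmodule => (y : Fin n → ℤ)) h1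
      simp only [Submodule.coe_sum, Submodule.coe_smul] at h2
      have h3 := congrFun h2 i
      exact_mod_cast h3

lemma bdd (A : Matrix (Fin n) (Fin n) ℝ) : BddBelow (Set.range
    fun w : {w : Fin n → ℤ // w ≠ 0} => ∑ i, (Matrix.mulVec A (fun j => (w.1 j : ℝ))) i ^ 2) := by
  refine ⟨0, ?_⟩
  rintro _ ⟨w, rfl⟩
  exact Finset.sum_nonneg fun _ _ => sq_nonneg _

lemma minNorm_nonneg (A : Matrix (Fin n) (Fin n) ℝ) : 0 ≤ minNorm A :=
  Real.iInf_nonneg fun _ => Finset.sum_nonneg fun _ _ => sq_nonneg _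

lemma minNorm_le {A : Matrix (Fin n) (Fin n) ℝ} {L : Set (Fin n → ℤ)} (h : Rep A L)
    {x : Fin n → ℤ} (hx : x ∈ L) (hx0 : x ≠ 0) : minNorm A ≤ ((∑ i, x i ^ 2 : ℤ) : ℝ) := by
  obtain ⟨w, hw⟩ := h.from hx
  have hw0 : w ≠ 0 := by
    rintro rfl
    apply hx0
    funext i
    have h1 := congrFun hw i
    have h2 : (fun j => (((0 : Fin n → ℤ) j : ℤ) : ℝ)) = 0 := by funext j; simp
    rw [h2, Matrix.mulVec_zero] at h1
    have : (x i : ℝ) = 0 := h1.symm
    exact_mod_cast this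
  refine (ciInf_le (bdd A) ⟨w, hw0⟩).trans (le_of_eq ?_)
  simp only [hw]
  push_cast
  rfl

lemma le_minNorm (hn : 0 < n) {A : Matrix (Fin n) (Fin n) ℝ} (hA : A.det ≠ 0)
    {L : Set (Fin n → ℤ)} (h : Rep A L) {c : ℝ}
    (hc : ∀ x ∈ L, x ≠ 0 → c ≤ ((∑ i, x i ^ 2 : ℤ) : ℝ)) : c ≤ minNorm A := by
  haveI : Nonempty {w : Fin n → ℤ // w ≠ 0} := by
    refine ⟨⟨fun _ => 1, ?_⟩⟩
    intro h
    have := congrFun h ⟨0, hn⟩
    simp at this
  apply le_ciInf
  rintro ⟨w, hw⟩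
  obtain ⟨x, hx, hxw⟩ := h.to w
  have hx0 : x ≠ 0 := by
    rintro rfl
    apply hw
    apply cast_inj
    have h1 : A.mulVec (fun j => (w j : ℝ)) = A.mulVec 0 := by
      rw [← hxw, Matrix.mulVec_zero]; funext i; simp
    have h2 := mulVec_inj hA h1
    rw [h2]; funext i; simp
  refine (hc x hx hx0).trans (le_of_eq ?_)
  simp only [← hxw]
  push_cast
  rfl

lemma X_pow (hn : 0 < n) (A : Matrix (Fin n) (Fin n) ℝ) :
    (|A.det| ^ ((2 : ℝ) / (n : ℝ))) ^ n = |A.det| ^ 2 := by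
  have hn' : (n : ℝ) ≠ 0 := by exact_mod_cast hn.ne'
  rw [← Real.rpow_natCast, ← Real.rpow_mul (abs_nonneg _), div_mul_cancel₀ _ hn']
  norm_num

/-- lattices closed under the componentwise product -/
theorem minNorm_le_sq (hn : 0 < n) {A : Matrix (Fin n) (Fin n) ℝ} (hA : A.det ≠ 0)
    {L : AddSubgroup (Fin n → ℤ)} (h : Rep A L) (hmul : ∀ x ∈ L, ∀ y ∈ L, x * y ∈ L) :
    minNorm A ≤ (|A.det| ^ ((2 : ℝ) / (n : ℝ))) ^ 2 := by
  haveI : Nonempty (Fin n) := ⟨⟨0, hn⟩⟩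
  have hidx := index_eq hA h
  have hL : L.index ≠ 0 := by
    intro h0
    rw [h0] at hidx
    exact hA (abs_eq_zero.1 (by rw [← hidx]; simp))
  obtain ⟨x, hx, hx0, hxn⟩ := exists_short hmul hL
  refine (minNorm_le h hx hx0).trans ?_
  have h1 : (((∑ i, x i ^ 2 : ℤ) : ℝ)) ^ n ≤ ((|A.det| ^ ((2 : ℝ) / (n : ℝ))) ^ 2) ^ n := by
    rw [← pow_mul, mul_comm 2 n, pow_mul, X_pow hn, ← pow_mul, ← hidx]
    rw [Fintype.card_fin] at hxn
    exact_mod_cast hxn
  exact le_of_pow_le_pow_left₀ hn.ne' (by positivity) h1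

/-- unital ring lattices -/
theorem herm_le_sqrt (hn : 0 < n) {A : Matrix (Fin n) (Fin n) ℝ} (hA : A.det ≠ 0)
    {R : Subring (Fin n → ℤ)} (h : Rep A R) : herm A ≤ √n := by
  have h1 := minNorm_le_sq hn hA (L := R.toAddSubgroup) h (fun x hx y hy => R.mul_mem hx hy)
  have h2 : minNorm A ≤ n := by
    have := minNorm_le h (x := 1) R.one_mem (by
      intro h
      have := congrFun h ⟨0, hn⟩
      simp at this)
    simpa using this
  have h0 := minNorm_nonneg A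
  set X := |A.det| ^ ((2 : ℝ) / (n : ℝ)) with hX
  have hX0 : 0 < X := Real.rpow_pos_of_pos (abs_pos.2 hA) _
  unfold herm
  rw [div_le_iff₀ hX0]
  have h3 : minNorm A ^ 2 ≤ (√n * X) ^ 2 := by
    rw [mul_pow, Real.sq_sqrt (Nat.cast_nonneg n), sq]
    exact mul_le_mul h2 h1 h0 (Nat.cast_nonneg n)
  exact (sq_le_sq₀ h0 (by positivity)).1 h3

lemma lower {k E t : ℕ} (hn : 0 < n) (h : Good (Fin n) k E) (hE : 4 * E ≤ n * (k + t)) {τ : ℝ}
    (hτ0 : 0 ≤ τ) (hτ : τ ^ 2 * 2 ^ t ≤ 2 ^ k) :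
    ∃ (A : Matrix (Fin n) (Fin n) ℝ) (R : Subring (Fin n → ℤ)), A.det ≠ 0 ∧ Rep A R ∧
      τ ≤ herm A := by
  obtain ⟨R, hR1, hR2⟩ := h
  obtain ⟨A, hA, hRep⟩ := exists_matrix (L := R.toAddSubgroup) (by rw [hR1]; positivity)
  refine ⟨A, R, hA, hRep, ?_⟩
  have hidx := index_eq hA hRep
  rw [hR1] at hidx
  have h1 : (2 : ℝ) ^ k ≤ minNorm A := le_minNorm hn hA hRep (fun x hx hx0 => by
    exact_mod_cast hR2 x hx hx0)
  have hXp := X_pow hn A
  unfold herm
  set X := |A.det| ^ ((2 : ℝ) / (n : ℝ)) with hX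
  have hX0 : 0 < X := Real.rpow_pos_of_pos (abs_pos.2 hA) _
  have h2 : X ^ 2 ≤ 2 ^ (k + t) := by
    apply le_of_pow_le_pow_left₀ hn.ne' (by positivity)
    rw [← pow_mul, mul_comm 2 n, pow_mul, hXp, ← hidx]
    push_cast
    rw [← pow_mul, ← pow_mul, ← pow_mul]
    apply pow_le_pow_right₀ (by norm_num)
    rw [mul_comm (k + t) n]
    omega
  rw [le_div_iff₀ hX0]
  refine le_trans ?_ h1
  have h3 : (τ * X) ^ 2 ≤ (2 ^ k) ^ 2 := by
    have h4 : (0 : ℝ) < 2 ^ t := by positivity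
    calc (τ * X) ^ 2 = τ ^ 2 * X ^ 2 := mul_pow _ _ _
      _ ≤ τ ^ 2 * 2 ^ (k + t) := mul_le_mul_of_nonneg_left h2 (sq_nonneg _)
      _ = (τ ^ 2 * 2 ^ t) * 2 ^ k := by rw [pow_add]; ring
      _ ≤ 2 ^ k * 2 ^ k := mul_le_mul_of_nonneg_right hτ (by positivity)
      _ = (2 ^ k) ^ 2 := by ring
  exact (sq_le_sq₀ (by positivity) (by positivity)).1 h3

theorem lower_two_pow (m : ℕ) : ∃ (A : Matrix (Fin (2 ^ m)) (Fin (2 ^ m)) ℝ)
    (R : Subring (Fin (2 ^ m) → ℤ)), A.det ≠ 0 ∧ Rep A R ∧ √(2 ^ m / 2) ≤ herm A := by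
  obtain ⟨E, h, hE⟩ := good_two_pow m
  refine lower (t := 1) (by positivity) h hE (Real.sqrt_nonneg _) ?_
  rw [Real.sq_sqrt (by positivity)]
  linarith

theorem lower_all (hn : 0 < n) : ∃ (A : Matrix (Fin n) (Fin n) ℝ)
    (R : Subring (Fin n → ℤ)), A.det ≠ 0 ∧ Rep A R ∧ √n / 4 ≤ herm A := by
  have h1 : 2 ^ Nat.log 2 n ≤ n := Nat.pow_log_le_self 2 hn.ne'
  have h2 : n < 2 ^ (Nat.log 2 n + 1) := Nat.lt_pow_succ_log_self (by norm_num) _
  obtain ⟨E, h, hE⟩ := good_all h1 h2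
  refine lower (t := 3) hn h hE (by positivity) ?_
  rw [div_pow, Real.sq_sqrt (Nat.cast_nonneg n)]
  have h3 : (n : ℝ) < 2 ^ (Nat.log 2 n + 1) := by exact_mod_cast h2
  rw [pow_succ] at h3
  linarith

/-- similar lattices -/
lemma herm_similar (hn : 0 < n) {A B Q : Matrix (Fin n) (Fin n) ℝ} {c : ℝ} (hc : c ≠ 0)
    (hQ : Q ∈ Matrix.orthogonalGroup (Fin n) ℝ) (hA : A = c • (Q * B)) : herm A = herm B := by
  have hn' : (n : ℝ) ≠ 0 := by exact_mod_cast hn.ne'
  have hQ1 : Q.transpose * Q = 1 := (Matrix.mem_orthogonalGroup_iff' _ _).1 hQ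
  have h1 : minNorm A = c ^ 2 * minNorm B := by
    unfold minNorm
    rw [Real.mul_iInf_of_nonneg (sq_nonneg c)]
    congr 1
    funext w
    set u := fun j => (w.1 j : ℝ) with hu
    have e1 : A.mulVec u = c • Q.mulVec (B.mulVec u) := by
      rw [hA, Matrix.smul_mulVec, Matrix.mulVec_mulVec]
    have e2 : ∀ v : Fin n → ℝ, ∑ i, v i ^ 2 = v ⬝ᵥ v := by
      intro v
      simp only [dotProduct, sq]
    rw [e1, e2, e2, smul_dotProduct, dotProduct_smul]
    have e3 : Q.mulVec (B.mulVec u) ⬝ᵥ Q.mulVec (B.mulVec u) = B.mulVec u ⬝ᵥ B.mulVec u := by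
      rw [Matrix.dotProduct_mulVec, ← Matrix.mulVec_transpose, Matrix.mulVec_mulVec, hQ1,
        Matrix.one_mulVec]
    rw [e3]
    simp only [smul_eq_mul]
    ring
  have h2 : |A.det| = |c| ^ n * |B.det| := by
    rw [hA, Matrix.det_smul, Matrix.det_mul, Fintype.card_fin, abs_mul, abs_mul, abs_pow]
    have h3 : |Q.det| = 1 := by
      have h4 := congrArg Matrix.det hQ1
      rw [Matrix.det_mul, Matrix.det_transpose, Matrix.det_one] at h4
      have h5 : |Q.det| * |Q.det| = 1 := by rw [← abs_mul, h4, abs_one]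
      nlinarith [abs_nonneg Q.det]
    rw [h3, one_mul]
  have h3 : |A.det| ^ ((2 : ℝ) / (n : ℝ)) = c ^ 2 * |B.det| ^ ((2 : ℝ) / (n : ℝ)) := by
    rw [h2, Real.mul_rpow (by positivity) (abs_nonneg _), ← Real.rpow_natCast, ← Real.rpow_mul
      (abs_nonneg _)]
    congr 1
    rw [mul_div_cancel₀ _ hn']
    norm_num
  unfold herm
  rw [h1, h3, mul_div_mul_left _ _ (pow_ne_zero 2 hc)]

end Pool.Agent.helper275_ring
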