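import Mathlib

/-! The index of a multiplicatively closed subgroup of `ℤ^n`. -/

open Finset

namespace Pool.Agent.helper275_ring

variable {ι : Type*} [Fintype ι] [DecidableEq ι]

/-- the integer vectors with `m i ∣ x i` -/
def I (m : ι → ℕ) : AddSubgroup (ι → ℤ) where
  carrier := {x | ∀ i, (m i : ℤ) ∣ x i}
  add_mem' := fun hx hy i => dvd_add (hx i) (hy i)
  zero_mem' := fun _ => dvd_zero _
  neg_mem' := fun hx i => (dvd_neg).2 (hx i)

omit [Fintype ι] [DecidableEq ι] in
lemma mem_I {m : ι → ℕ} {x : ι → ℤ} : x ∈ I m ↔ ∀ i, (m i : ℤ) ∣ x i := Iff.rfl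

omit [DecidableEq ι] in
lemma index_I (m : ι → ℕ) : (I m).index = ∏ i, m i := by
  let φ : (ι → ℤ) →+ (∀ i, ZMod (m i)) :=
    { toFun := fun x i => (x i : ZMod (m i))
      map_zero' := by ext; simp
      map_add' := by intro x y; ext; simp }
  have hk : φ.ker = I m := by
    ext x
    rw [AddMonoidHom.mem_ker, mem_I]
    constructor
    · intro h i
      exact (ZMod.intCast_zmod_eq_zero_iff_dvd _ _).1 (congrFun h i)
    · intro h
      funext i
      exact (ZMod.intCast_zmod_eq_zero_iff_dvd _ _).2 (h i)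
  have hs : Function.Surjective φ := by
    intro y
    choose x hx using fun i => ZMod.intCast_surjective (y i)
    exact ⟨x, funext hx⟩
  rw [← hk, AddSubgroup.index_ker, AddMonoidHom.range_eq_top.2 hs, AddSubgroup.card_top, Nat.card_pi]
  simp

omit [Fintype ι] [DecidableEq ι] in
lemma I_mono {m m' : ι → ℕ} (h : ∀ i, m i ∣ m' i) : I m' ≤ I m := by
  intro x hx i
  exact dvd_trans (Int.natCast_dvd_natCast.2 (h i)) (hx i)

lemma I_le {L : AddSubgroup (ι → ℤ)} {f : ι → ℕ} (hfL : ∀ i, Pi.single i (f i : ℤ) ∈ L) :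
    I f ≤ L := by
  intro x hx
  choose c hc using hx
  have : x = ∑ i, c i • Pi.single i (f i : ℤ) := by
    funext j
    rw [Finset.sum_apply, Finset.sum_eq_single j]
    · simp [hc j, mul_comm]
    · intro i _ hij
      simp [hij.symm]
    · simp
  rw [this]
  exact AddSubgroup.sum_mem _ fun i _ => AddSubgroup.zsmul_mem _ (hfL i) _

lemma prod_update' {k : ι → ℕ} {t : ι} {p c : ℕ} (hk : k t = p * c) :
    ∏ i, k i = p * ∏ i, Function.update k t c i := by
  rw [← Finset.mul_prod_erase univ k (Finset.mem_univ t),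
    ← Finset.mul_prod_erase univ (Function.update k t c) (Finset.mem_univ t), Function.update_self, hk,
    mul_assoc]
  congr 2
  apply Finset.prod_congr rfl
  intro x hx
  rw [Function.update_of_ne (Finset.ne_of_mem_erase hx)]

lemma relIndex_le {L : AddSubgroup (ι → ℤ)} {m : ι → ℕ} (hm : ∀ i, 0 < m i) {t : ι} {p : ℕ}
    (hp : 0 < p) : (L ⊓ I (Function.update m t (m t * p))).relIndex (L ⊓ I m) ≤ p := by
  set m' := Function.update m t (m t * p) with hm'
  have hle : I m' ≤ I m := I_mono fun i => by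
    rw [hm']
    by_cases h : i = t
    · subst h; simp
    · rw [Function.update_of_ne h]
  have h1 : (I m').relIndex (I m) = p := by
    have h2 := AddSubgroup.relIndex_mul_index hle
    rw [index_I, index_I] at h2
    have h3 : ∏ i, m' i = p * ∏ i, m i := by
      rw [prod_update' (k := m') (t := t) (p := p) (c := m t) (by rw [hm']; simp [mul_comm]), hm']
      simp
    rw [h3] at h2
    exact Nat.eq_of_mul_eq_mul_right (Finset.prod_pos fun i _ => hm i) h2
  have h2 : (L ⊓ I m').relIndex (L ⊓ I m) = (I m').relIndex (L ⊓ I m) := by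
    rw [← AddSubgroup.inf_relIndex_right, ← AddSubgroup.inf_relIndex_right (I m')]
    congr 1
    ext x
    simp only [AddSubgroup.mem_inf]
    tauto
  rw [h2, ← h1]
  exact AddSubgroup.relIndex_le_of_le_right inf_le_right (by rw [h1]; omega)

/-- the step of the main argument -/
lemma not_both {L : AddSubgroup (ι → ℤ)} (hmul : ∀ x ∈ L, ∀ y ∈ L, x * y ∈ L) {f : ι → ℕ}
    (hfL : ∀ i, Pi.single i (f i : ℤ) ∈ L)
    (hmin : ∀ i, ∀ g : ℕ, 0 < g → g < f i → Pi.single i (g : ℤ) ∉ L)
    {m k : ι → ℕ} (hmk : ∀ i, m i * k i = f i) {t : ι} {p c : ℕ} (hp : p.Prime) (hk : k t = p * c)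
    (hm : 0 < m t) (hc : 0 < c)
    {x z : ι → ℤ} (hx : x ∈ L ⊓ I m) (hx' : x ∉ I (Function.update m t (m t * p)))
    (hz : z ∈ L ⊓ I (Function.update k t c)) (hz' : z ∉ I k) : False := by
  obtain ⟨u, hu⟩ := hx.2 t
  have hz2 := hz.2 t
  rw [Function.update_self] at hz2
  obtain ⟨v, hv⟩ := hz2
  have hpu : ¬ (p : ℤ) ∣ u := by
    intro h
    apply hx'
    intro i
    by_cases hi : i = t
    · subst hi
      rw [Function.update_self, hu]
      push_cast
      exact mul_dvd_mul_left _ h
    · rw [Function.update_of_ne hi]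
      exact hx.2 i
  have hpv : ¬ (p : ℤ) ∣ v := by
    intro h
    apply hz'
    intro i
    by_cases hi : i = t
    · subst hi
      rw [hk, hv, mul_comm p c]
      push_cast
      exact mul_dvd_mul_left _ h
    · have := hz.2 i
      rwa [Function.update_of_ne hi] at this
  have hpw : ¬ (p : ℤ) ∣ u * v := by
    intro h
    rcases Int.Prime.dvd_mul' hp h with h | h
    · exact hpu h
    · exact hpv h
  have hy : x * z ∈ L := hmul x hx.1 z hz.1
  have hy0 : Function.update (x * z) t 0 ∈ L := by
    apply I_le hfL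
    intro i
    by_cases hi : i = t
    · subst hi; simp
    · rw [Function.update_of_ne hi, Pi.mul_apply, ← hmk i]
      push_cast
      have h2 := hz.2 i
      rw [Function.update_of_ne hi] at h2
      exact mul_dvd_mul (hx.2 i) h2
  have hs : Pi.single t ((m t * c : ℕ) * (u * v) : ℤ) ∈ L := by
    have h1 := L.sub_mem hy hy0
    have h2 : x * z - Function.update (x * z) t 0 = Pi.single t ((m t * c : ℕ) * (u * v) : ℤ) := by
      funext i
      by_cases hi : i = t
      · subst hi
        simp only [Pi.sub_apply, Pi.mul_apply, Function.update_self, Pi.single_eq_same, hu, hv]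
        push_cast
        ring
      · simp [Pi.sub_apply, hi]
    rwa [h2] at h1
  have hs2 : Pi.single t ((m t * c : ℕ) * (p : ℤ) : ℤ) ∈ L := by
    have h1 := hfL t
    have h2 : (f t : ℤ) = (m t * c : ℕ) * (p : ℤ) := by
      rw [← hmk t, hk]
      push_cast
      ring
    rwa [h2] at h1
  have hcop : IsCoprime (u * v) (p : ℤ) :=
    ((Nat.prime_iff_prime_int.1 hp).irreducible.coprime_iff_not_dvd.2 hpw).symm
  obtain ⟨a, b, hab⟩ := hcop
  have hs3 : Pi.single t ((m t * c : ℕ) : ℤ) ∈ L := by
    have h1 := L.add_mem (L.zsmul_mem hs a) (L.zsmul_mem hs2 b)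
    have h2 : a • Pi.single t ((m t * c : ℕ) * (u * v) : ℤ) +
        b • Pi.single t ((m t * c : ℕ) * (p : ℤ) : ℤ) = (Pi.single t ((m t * c : ℕ) : ℤ) : ι → ℤ) := by
      funext i
      by_cases hi : i = t
      · subst hi
        simp only [Pi.add_apply, Pi.smul_apply, Pi.single_eq_same, smul_eq_mul]
        linear_combination ((m i * c : ℕ) : ℤ) * hab
      · simp [hi]
    rwa [h2] at h1
  refine hmin t (m t * c) (by positivity) ?_ hs3
  rw [← hmk t, hk]
  have := hp.two_le
  nlinarith [Nat.mul_pos hm hc]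

theorem rel_bound {L : AddSubgroup (ι → ℤ)} (hmul : ∀ x ∈ L, ∀ y ∈ L, x * y ∈ L) {f : ι → ℕ}
    (hf : ∀ i, 0 < f i) (hfL : ∀ i, Pi.single i (f i : ℤ) ∈ L)
    (hmin : ∀ i, ∀ g : ℕ, 0 < g → g < f i → Pi.single i (g : ℤ) ∉ L) :
    ∀ (N : ℕ) (m k : ι → ℕ), (∀ i, m i * k i = f i) → ∏ i, k i = N →
      (I f).relIndex (L ⊓ I m) * (L ⊓ I k).relIndex L ≤ ∏ i, k i := by
  intro N
  induction N using Nat.strong_induction_on with
  | _ N ih =>
    intro m k hmk hN
    have hm : ∀ i, 0 < m i := fun i => Nat.pos_of_ne_zero fun h => by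
      have := hmk i; rw [h, zero_mul] at this; have := hf i; omega
    have hk : ∀ i, 0 < k i := fun i => Nat.pos_of_ne_zero fun h => by
      have := hmk i; rw [h, mul_zero] at this; have := hf i; omega
    by_cases hall : ∀ i, k i = 1
    · have hmf : m = f := by
        funext i
        have := hmk i
        rw [hall i, mul_one] at this
        exact this
      rw [hmf, AddSubgroup.relIndex_eq_one.2 inf_le_right, AddSubgroup.relIndex_eq_one.2, one_mul]
      · exact Nat.one_le_iff_ne_zero.2 (Finset.prod_pos fun i _ => hk i).ne'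
      · refine le_inf le_rfl ?_
        intro x _ i
        rw [hall i]
        simp
    · push Not at hall
      obtain ⟨t, ht⟩ := hall
      set p := (k t).minFac with hp
      have hpp : p.Prime := Nat.minFac_prime ht
      obtain ⟨c, hc⟩ := Nat.minFac_dvd (k t)
      rw [← hp] at hc
      have hc0 : 0 < c := Nat.pos_of_ne_zero fun h => by
        rw [h, mul_zero] at hc; have := hk t; omega
      set m' := Function.update m t (m t * p) with hm'
      set k' := Function.update k t c with hk'
      have hprod := prod_update' hc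
      rw [← hk'] at hprod
      have hk'0 : 0 < ∏ i, k' i := by
        have : 0 < ∏ i, k i := Finset.prod_pos fun i _ => hk i
        rw [hprod] at this
        exact Nat.pos_of_mul_pos_left this
      have hmk' : ∀ i, m' i * k' i = f i := by
        intro i
        by_cases hi : i = t
        · subst hi
          rw [hm', hk', Function.update_self, Function.update_self, ← hmk i, hc]
          ring
        · rw [hm', hk', Function.update_of_ne hi, Function.update_of_ne hi, hmk i]
      have hIH := ih (∏ i, k' i) (by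
        rw [← hN, hprod]
        have := hpp.two_le
        nlinarith) m' k' hmk' rfl
      have hIfL : I f ≤ L := I_le hfL
      have hIf : ∀ l : ι → ℕ, (∀ i, l i ∣ f i) → I f ≤ L ⊓ I l := fun l hl =>
        le_inf hIfL (I_mono hl)
      have hm'm : I m' ≤ I m := I_mono fun i => by
        rw [hm']
        by_cases h : i = t
        · subst h; simp
        · rw [Function.update_of_ne h]
      have hkk' : I k ≤ I k' := I_mono fun i => by
        rw [hk']
        by_cases h : i = t
        · subst h; rw [Function.update_self, hc]; exact dvd_mul_left _ _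
        · rw [Function.update_of_ne h]
      have ha := AddSubgroup.relIndex_mul_relIndex (I f) (L ⊓ I m') (L ⊓ I m)
        (hIf m' fun i => ⟨k' i, (hmk' i).symm⟩) (inf_le_inf_left L hm'm)
      have hb := AddSubgroup.relIndex_mul_relIndex (L ⊓ I k) (L ⊓ I k') L
        (inf_le_inf_left L hkk') inf_le_left
      have hc1 : (L ⊓ I m').relIndex (L ⊓ I m) ≤ p := relIndex_le hm hpp.pos
      have hc2 : (L ⊓ I k).relIndex (L ⊓ I k') ≤ p := by
        have hkk : k = Function.update k' t (k' t * p) := by
          funext i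
          by_cases hi : i = t
          · subst hi
            rw [Function.update_self, hk', Function.update_self, hc, mul_comm]
          · rw [Function.update_of_ne hi, hk', Function.update_of_ne hi]
        have h2 : (L ⊓ I (Function.update k' t (k' t * p))).relIndex (L ⊓ I k') ≤ p :=
          relIndex_le (fun i => by
            by_cases hi : i = t
            · subst hi; rw [hk', Function.update_self]; exact hc0
            · rw [hk', Function.update_of_ne hi]; exact hk i) hpp.pos
        rwa [← hkk] at h2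
      have hcc : (L ⊓ I m').relIndex (L ⊓ I m) * (L ⊓ I k).relIndex (L ⊓ I k') ≤ p := by
        by_cases h1 : L ⊓ I m ≤ L ⊓ I m'
        · rw [AddSubgroup.relIndex_eq_one.2 h1, one_mul]; exact hc2
        · by_cases h2 : L ⊓ I k' ≤ L ⊓ I k
          · rw [AddSubgroup.relIndex_eq_one.2 h2, mul_one]; exact hc1
          · exfalso
            obtain ⟨x, hx, hx'⟩ := SetLike.not_le_iff_exists.1 h1
            obtain ⟨z, hz, hz'⟩ := SetLike.not_le_iff_exists.1 h2
            exact not_both hmul hfL hmin hmk hpp hc (hm t) hc0 hx (fun h => hx' ⟨hx.1, h⟩) hz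
              (fun h => hz' ⟨hz.1, h⟩)
      rw [← ha, ← hb, hprod]
      calc (I f).relIndex (L ⊓ I m') * (L ⊓ I m').relIndex (L ⊓ I m) *
            ((L ⊓ I k).relIndex (L ⊓ I k') * (L ⊓ I k').relIndex L)
          = ((L ⊓ I m').relIndex (L ⊓ I m) * (L ⊓ I k).relIndex (L ⊓ I k')) *
            ((I f).relIndex (L ⊓ I m') * (L ⊓ I k').relIndex L) := by ring
        _ ≤ p * ∏ i, k' i := Nat.mul_le_mul hcc hIH

/-- **The index.** -/
theorem prod_le_index_sq {L : AddSubgroup (ι → ℤ)} (hmul : ∀ x ∈ L, ∀ y ∈ L, x * y ∈ L) {f : ι → ℕ}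
    (hf : ∀ i, 0 < f i) (hfL : ∀ i, Pi.single i (f i : ℤ) ∈ L)
    (hmin : ∀ i, ∀ g : ℕ, 0 < g → g < f i → Pi.single i (g : ℤ) ∉ L) :
    ∏ i, f i ≤ L.index ^ 2 := by
  have hIfL : I f ≤ L := I_le hfL
  have h1 := rel_bound hmul hf hfL hmin (∏ i, f i) (fun _ => 1) f (fun i => one_mul _) rfl
  have e1 : L ⊓ I (fun _ : ι => 1) = L := by
    apply le_antisymm inf_le_left
    refine le_inf le_rfl ?_
    intro x _ i
    simp
  have e2 : L ⊓ I f = I f := inf_eq_right.2 hIfL
  rw [e1, e2] at h1
  have h2 := AddSubgroup.relIndex_mul_index hIfL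
  rw [index_I] at h2
  have hpos : 0 < ∏ i, f i := Finset.prod_pos fun i _ => hf i
  have h3 : (∏ i, f i) * (∏ i, f i) ≤ (∏ i, f i) * L.index ^ 2 := by
    calc (∏ i, f i) * (∏ i, f i) = ((I f).relIndex L * (I f).relIndex L) * L.index ^ 2 := by
          rw [← h2]; ring
      _ ≤ _ := Nat.mul_le_mul_right _ h1
  exact Nat.le_of_mul_le_mul_left h3 hpos

/-- a short vector -/
theorem exists_short [Nonempty ι] {L : AddSubgroup (ι → ℤ)} (hmul : ∀ x ∈ L, ∀ y ∈ L, x * y ∈ L)
    (hL : L.index ≠ 0) :
    ∃ x ∈ L, x ≠ 0 ∧ (∑ i, x i ^ 2) ^ Fintype.card ι ≤ (L.index : ℤ) ^ 4 := by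
  classical
  have hex : ∀ i : ι, ∃ g : ℕ, 0 < g ∧ Pi.single i (g : ℤ) ∈ L := by
    intro i
    refine ⟨L.index, Nat.pos_of_ne_zero hL, ?_⟩
    have h1 := AddSubgroup.nsmul_index_mem L (Pi.single i (1 : ℤ))
    have h2 : L.index • (Pi.single i (1 : ℤ) : ι → ℤ) = Pi.single i (L.index : ℤ) := by
      funext j
      by_cases hj : j = i
      · subst hj; simp
      · simp [hj]
    rwa [h2] at h1
  set f : ι → ℕ := fun i => Nat.find (hex i) with hf
  have hf1 : ∀ i, 0 < f i := fun i => (Nat.find_spec (hex i)).1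
  have hf2 : ∀ i, Pi.single i (f i : ℤ) ∈ L := fun i => (Nat.find_spec (hex i)).2
  have hf3 : ∀ i, ∀ g : ℕ, 0 < g → g < f i → Pi.single i (g : ℤ) ∉ L := fun i g h1 h2 h3 =>
    Nat.find_min (hex i) h2 ⟨h1, h3⟩
  have h1 := prod_le_index_sq hmul hf1 hf2 hf3
  obtain ⟨i, -, hi⟩ := Finset.exists_min_image (univ : Finset ι) f Finset.univ_nonempty
  have h2 : f i ^ Fintype.card ι ≤ ∏ j, f j := by
    rw [← Finset.card_univ, ← Finset.prod_const]
    exact Finset.prod_le_prod' fun j hj => hi j hj
  refine ⟨Pi.single i (f i : ℤ), hf2 i, ?_, ?_⟩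
  · intro h
    have := congrFun h i
    simp at this
    have := hf1 i
    omega
  · have h3 : ∑ j, (Pi.single i (f i : ℤ) : ι → ℤ) j ^ 2 = (f i : ℤ) ^ 2 := by
      rw [Finset.sum_eq_single i]
      · simp
      · intro j _ hj
        simp [hj]
      · simp
    rw [h3]
    have h4 : (f i ^ 2) ^ Fintype.card ι ≤ L.index ^ 4 := by
      calc (f i ^ 2) ^ Fintype.card ι = (f i ^ Fintype.card ι) ^ 2 := by ring
        _ ≤ (L.index ^ 2) ^ 2 := Nat.pow_le_pow_left (h2.trans h1) 2
        _ = L.index ^ 4 := by ring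
    exact_mod_cast h4

end Pool.Agent.helper275_ring
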